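import Pool.Agent.ASD.Stmts8
import Pool.Agent.Helper96_PP.Trn

/-!
# Squad ASD, row LNH: groups with a normal `ℓ`-subgroup
-/

namespace Pool.Agent.PP.SD.H15

open Pool.Agent.Helper51_AWC Pool.Agent.Helper79_WRA Pool.Agent.PP Pool.Agent.PP.KF
open Pool.Agent.PP.K9 Pool.Agent.PP.K9.H97 Pool.Agent.PP.H75 Pool.Agent.PP.T3 Pool.Agent.PP.SO

attribute [local instance] Ideal.Quotient.field

theorem lnh (hLnn : LnnStmt) (hChv : K9.ChvStmt) : LnhStmt := by
  intro ℓ hℓf M _ hM V₀ G _ _ _ _ E₀ hF B hB A hA hN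
  have hℓ : ℓ.Prime := hℓf.out
  have hV : IsPGroup ℓ V₀ := IsPGroup.of_card hF.cd
  -- the normal subgroup
  have hcore : opCore ℓ (⊤ : Subgroup G) ≠ ⊥ := by
    have hle : (A.map B.i).subgroupOf ⊤ ≤ opCore ℓ (⊤ : Subgroup G) := by
      refine le_sSup ⟨?_, ?_⟩
      · exact hN.subgroupOf ⊤
      · exact ((hV.to_subgroup A).map B.i).comap_subtype
    obtain ⟨⟨a, haA⟩, ha⟩ := Subgroup.ne_bot_iff_exists_ne_one.1 hA
    have ha1 : a ≠ 1 := fun h' => ha (Subtype.ext h')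
    intro hbot
    have h1 : (⟨B.i a, Subgroup.mem_top _⟩ : (⊤ : Subgroup G)) ∈ opCore ℓ (⊤ : Subgroup G) :=
      hle (Subgroup.mem_subgroupOf.2 (Subgroup.mem_map_of_mem B.i haA))
    rw [hbot, Subgroup.mem_bot] at h1
    have h2 : B.i a = 1 := congrArg Subtype.val h1
    exact ha1 (hB.inj (h2.trans (map_one B.i).symm))
  have h0 : YY ℓ (⊤ : Subgroup G) B.e = 0 :=
    H96.yzr ℓ (FF M) hℓ G ⊤ inferInstance hcore B.e
  have hcard : Nat.card B.i.range = ℓ ^ 2 := by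
    rw [← hF.cd]
    exact Nat.card_congr (MonoidHom.ofInjective hB.inj).toEquiv.symm
  have h1 := hChv ℓ M hM G B.e hB.ld.blk B.i.range hB.ld.tp hcard
  rw [h0] at h1
  have h2 := hLnn ℓ M hM V₀ G E₀ B hB
  rw [← h2]
  have hG : (Nat.card G : ℤ) ≠ 0 := by
    exact_mod_cast Nat.card_pos.ne'
  have h3 : (Nat.card G : ℤ) * (ln B.e : ℤ) = (Nat.card G : ℤ) *
      (ln (fun t : Subgroup.normalizer (B.i.range : Set G) => br B.i.range B.e t) : ℤ) := by
    unfold ln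
    linarith
  exact_mod_cast mul_left_cancel₀ hG h3

end Pool.Agent.PP.SD.H15
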